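import Pool.Agent.R730.MT.Tk

/-!
The monotone triangle polynomial at the rows `(1, ..., k-3, k-1, k, k-1, k, k+1, ..., n)`.
-/

namespace Pool.Agent.Results.MP_039c6c_co.RationalMultiples

open Pool.Agent.R730.MT

/-- the sequence `(1, ..., k-3, k-1, k, k-1, k, k+1, ..., n)` -/
def tseq (k n : ℕ) : List ℤ :=
  up 1 (k - 3) ++ [(k : ℤ) - 1, (k : ℤ), (k : ℤ) - 1, (k : ℤ)] ++ up (k + 1) (n - k)

/-- There is exactly one family of polynomials counting monotone triangles, and for every `k ≥ 4`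
its values `T_k(n)` at the rows `tseq k n` are a rational function of `n` of degree `k - 3` times
the number of alternating sign matrices of size `n - 1`. -/
theorem result :
    ∃ α : (∀ n, MvPolynomial (Fin n) ℚ), (∀ n p, IsMTPoly n p ↔ p = α n) ∧
      ∀ k : ℕ, 4 ≤ k → ∃ p q : Polynomial ℚ,
        (p.natDegree : ℤ) - q.natDegree = (k : ℤ) - 3 ∧
        ∀ n : ℕ, k ≤ n → q.eval (n : ℚ) ≠ 0 ∧
          valAt α (tseq k n) = p.eval (n : ℚ) / q.eval (n : ℚ) *
            (Nat.card {M : Matrix (Fin (n - 1)) (Fin (n - 1)) ℤ // IsASM M} : ℚ) := by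
  refine ⟨mtp, isMTPoly_iff, ?_⟩
  intro k hk
  obtain ⟨p, rfl⟩ : ∃ p, k = p + 3 := ⟨k - 3, by omega⟩
  refine ⟨PS p, PQ p, ?_, ?_⟩
  · rw [PS_deg, (PQ_deg p).2]
    push_cast
    ring
  · intro n hn
    obtain ⟨s, rfl⟩ : ∃ s, n = p + 3 + s := ⟨n - (p + 3), by omega⟩
    refine ⟨(PQ_pos p (by omega)).ne', ?_⟩
    have hlen : (tseq (p + 3) (p + 3 + s)).length = p + 4 + s := by
      simp only [tseq, List.length_append, length_up, List.length_cons, List.length_nil]
      omega
    have e1 : p + 3 + s - 1 = p + 2 + s := by omega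
    rw [valAt_eq hlen, e1, (card_ASM (p + 2 + s)).2, ← al_Tk_eq p s]
    simp only [tseq, wd_append, wd_up, wd_cons, wd_nil, mul_one]
    have e2 : p + 3 - 3 = p := by omega
    have e3 : p + 3 + s - (p + 3) = s := by omega
    have e4 : ((p + 3 : ℕ) : ℤ) - 1 = p + 2 := by push_cast; ring
    have e5 : ((p + 3 : ℕ) : ℤ) + 1 = p + 4 := by push_cast; ring
    have e6 : ((p + 3 : ℕ) : ℤ) = p + 3 := by push_cast; ring
    rw [e2, e3, e4, e5, e6]
    congr 3
    simp only [mul_assoc]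

end Pool.Agent.Results.MP_039c6c_co.RationalMultiples
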